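import Mathlib
import Pool.Agent.Helper26.VC.Final

/-!
# Voisin's conjecture for products of two curves

Let `S = C₁ × C₂` be a product of two smooth projective curves of genus `g₁` and `g₂` over an
algebraically closed field of characteristic zero, so that `p_g(S) = g₁ g₂`. For `n > p_g(S)` and
Albanese trivial zero-cycles `a_1, …, a_n` on `S`, the alternating sum of the exterior products
`a_{σ(1)} × ⋯ × a_{σ(n)}` is torsion in the Chow group of zero-cycles of `S ^ n`.

Curves are described by their function fields, see `Pool.Agent.Helper26.VC.Cycles` and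
`Pool.Agent.Helper26.VC.Defs` for the definitions.

Outline of the proof.
* A rational function of degree `d` on a curve `C` gives, after passing to the Galois closure of
  the corresponding extension of function fields, a relation between zero-cycles on `C ^ d`.
* By Riemann's inequality, `g + 1` points can be moved so that one of them is a given point `o`.
  Hence the symmetrization of `(x_0 - o) × ⋯ × (x_g - o)` is torsion in the Chow group
  of `C ^ (g + 1)`.
* A function on the symmetric group on `n > g₁ g₂` letters which is killed by antisymmetrizers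
  on `g₁ + 1` letters and by symmetrizers on `g₂ + 1` letters vanishes.
-/

namespace Pool.Agent.Results.MP_83b46e_ag.ProductOfCurves

open VC

universe u

theorem result {k : Type u} [Field k] [IsAlgClosed k] [CharZero k]
    {F₁ F₂ : Type u} [Field F₁] [Algebra k F₁] [Field F₂] [Algebra k F₂]
    (h₁ : IsFunctionField k F₁) (h₂ : IsFunctionField k F₂)
    (g₁ g₂ : ℕ) (hg₁ : IsGenus k F₁ g₁) (hg₂ : IsGenus k F₂ g₂)
    (n : ℕ) (hn : g₁ * g₂ < n)
    (a : Fin n → ((curve h₁).prod (curve h₂)).Cycles)
    (ha : ∀ i, AlbaneseTrivial (curve h₁) (curve h₂) (a i)) :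
    ∃ m : ℕ, 0 < m ∧ m • ∑ σ : Equiv.Perm (Fin n), ((Equiv.Perm.sign σ : ℤˣ) : ℤ) •
      extProd (fun i => a (σ i)) ∈ (((curve h₁).prod (curve h₂)).pow n).Rat :=
  alternating_product h₁ h₂ n g₁ g₂ hg₁.1 hg₂.1 hn a ha

end Pool.Agent.Results.MP_83b46e_ag.ProductOfCurves
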