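import Mathlib
import Pool.Agent.Helper87.MQ.Main4

set_option autoImplicit false

namespace Pool.Agent.Results.MP_295d38_ag.RandomMaps

open MvPolynomial

/-- The self-map of `𝔸ᴺ(ℂ) = ℂᴺ` given by `N` polynomials with rational coefficients. -/
noncomputable def polyMap {N : ℕ} (Φ : Fin N → MvPolynomial (Fin N) ℚ) (x : Fin N → ℂ) :
    Fin N → ℂ :=
  fun i => aeval x (Φ i)

/-- The return set `{n : Φⁿ(α) ∈ V}` for the closed subvariety `V` of `𝔸ᴺ` over `ℂ` cut out by the
polynomials of the set `V`. -/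
def returnSet {N : ℕ} (Φ : Fin N → MvPolynomial (Fin N) ℚ) (α : Fin N → ℂ)
    (V : Set (MvPolynomial (Fin N) ℂ)) : Set ℕ :=
  {n | ∀ F ∈ V, eval ((polyMap Φ)^[n] α) F = 0}

/-- The polynomial self-maps of `𝔸ᴺ` over `ℚ` of degree at most `d` all of whose coefficients have
height at most `B`: in lowest terms the numerator is in `[-B, B]` and the denominator is at
most `B`. -/
def box (N d B : ℕ) : Set (Fin N → MvPolynomial (Fin N) ℚ) :=
  {Φ | ∀ i, (Φ i).totalDegree ≤ d ∧
    ∀ s, |(coeff s (Φ i)).num| ≤ (B : ℤ) ∧ (coeff s (Φ i)).den ≤ B}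

/-- A very sparse set: for some `s` and some `c > 1` it has at most `s` elements in the interval
`[n, n + cⁿ)`, for every `n`. -/
def SuperSparse (S : Set ℕ) : Prop :=
  ∃ (s : ℕ) (c : ℝ), 1 < c ∧ ∀ n : ℕ, {k : ℕ | n ≤ k ∧ (k : ℝ) < n + c ^ n ∧ k ∈ S}.encard ≤ s

/-- The closed subvariety of `𝔸ᴺ` over `ℂ` cut out by `V` lies in a hypersurface of degree at
most `D`. -/
def InHypersurface {N : ℕ} (D : ℕ) (V : Set (MvPolynomial (Fin N) ℂ)) : Prop :=
  ∃ F : MvPolynomial (Fin N) ℂ, F ≠ 0 ∧ F.totalDegree ≤ D ∧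
    ∀ x : Fin N → ℂ, (∀ G ∈ V, eval x G = 0) → eval x F = 0

/-- The closed subvariety of `𝔸ᴺ` over `ℂ` cut out by `V` has dimension at most one. -/
def DimLEOne {N : ℕ} (V : Set (MvPolynomial (Fin N) ℂ)) : Prop :=
  ∀ P : Ideal (MvPolynomial (Fin N) ℂ), P.IsPrime → V ⊆ P →
    Algebra.trdeg ℂ (MvPolynomial (Fin N) ℂ ⧸ P) ≤ 1

/-- The property of the map `Φ` (for the field `L`, the common difference `M`, the degree `D` and the
closed set `W`), for all starting points over `L` at once: (1) the orbit meets `W` only finitely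
often; for all closed subvarieties `V` of `𝔸ᴺ` over `ℂ`, (2) the return set is finite if `V` lies in
a hypersurface of degree at most `D`, (3) it is finite or cofinite if `V` has dimension at most one,
and (4) in general it is the union of finitely many progressions `a + M ℕ` and a super-sparse
set. -/
def Holds {N : ℕ} (L : Subfield ℂ) (M D : ℕ) (W : Set (MvPolynomial (Fin N) ℂ))
    (Φ : Fin N → MvPolynomial (Fin N) ℚ) : Prop :=
  ∀ α : Fin N → ℂ, (∀ i, α i ∈ L) →
    (returnSet Φ α W).Finite ∧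
    ∀ V : Set (MvPolynomial (Fin N) ℂ),
      (InHypersurface D V → (returnSet Φ α V).Finite) ∧
      (DimLEOne V → (returnSet Φ α V).Finite ∨ (returnSet Φ α V)ᶜ.Finite) ∧
      ∃ (T : Finset ℕ) (S : Set ℕ), SuperSparse S ∧
        returnSet Φ α V = {n : ℕ | (∃ a ∈ T, ∃ k : ℕ, n = a + M * k) ∨ n ∈ S}

theorem pm_eq {m : ℕ} (Φ : Fin (m + 1) → MvPolynomial (Fin (m + 1)) ℚ) :
    Pool.Agent.Helper86.MQ.pm (Pool.Agent.Helper87.MQ.toC Φ) = polyMap Φ := by
  funext x i
  simp only [polyMap, Pool.Agent.Helper86.MQ.pm, Pool.Agent.Helper87.MQ.toC]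
  rw [eval_map, aeval_def]

/-- **The dynamical Mordell-Lang conjecture for one hundred percent of the polynomial self-maps of
affine `N`-space over `ℚ`, in every dimension `N` and every degree `d ≥ 2`**, for all starting points
over a finitely generated field `L` at once: exactly for all closed sets in hypersurfaces of degree
at most `D`, if there are at most `d` monomials of degree `D` in `N` variables, and for any proper
closed set `W` which is given in advance; and, for all closed sets `V` at once, exactly for curves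
and up to super-sparse sets in general. -/
theorem result (N : ℕ) (hN : 1 ≤ N) (d : ℕ) (hd : 2 ≤ d) (D : ℕ) (hD : (N - 1 + D).choose D ≤ d)
    (A : Finset ℂ) (W : Set (MvPolynomial (Fin N) ℂ)) (hW : ∃ F ∈ W, F ≠ 0)
    (ε : ℝ) (hε : 0 < ε) :
    ∃ M K : ℕ, 0 < M ∧ ∀ B : ℕ, K ≤ B → (box N d B).Finite ∧
      (1 - ε) * ((box N d B).ncard : ℝ) ≤
        (({Φ ∈ box N d B | Holds (Subfield.closure (A : Set ℂ)) M D W Φ}).ncard : ℝ) := by
  obtain ⟨m, rfl⟩ : ∃ m, N = m + 1 := ⟨N - 1, by omega⟩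
  obtain ⟨F₀, hF₀, hne⟩ := hW
  obtain ⟨M, K, hM, h⟩ := Pool.Agent.Helper87.MQ.main4 m d hd D hD A F₀ hne ε hε
  refine ⟨M, K, hM, fun B hB => ?_⟩
  obtain ⟨hfin, h1⟩ := h B hB
  refine ⟨hfin, h1.trans (Nat.cast_le.2 (Set.ncard_le_ncard ?_ (hfin.subset fun Φ hΦ => hΦ.1)))⟩
  rintro Φ ⟨hΦ, hC, hC'⟩
  refine ⟨hΦ, fun α hα => ⟨?_, fun V => ⟨?_, ?_⟩⟩⟩
  · have h2 := (hC' α hα).1
    rw [pm_eq] at h2
    exact h2.subset fun n hn => hn F₀ hF₀
  · rintro ⟨F, hF0, hFD, hFV⟩
    have h2 := (hC' α hα).2 F hF0 hFD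
    rw [pm_eq] at h2
    exact h2.subset fun n hn => hFV _ hn
  · obtain ⟨⟨T, S, hS, h2⟩, h3⟩ := hC α hα V
    rw [pm_eq] at h2 h3
    exact ⟨h3, T, S, hS.final, h2⟩

end Pool.Agent.Results.MP_295d38_ag.RandomMaps
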