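import Mathlib
import Pool.Agent.Helper26.VC.SymFinal

/-!
# Voisin's conjecture for symmetric squares of curves

Let `S = Sym² C` be the symmetric square of a smooth projective curve `C` of genus `g` over an
algebraically closed field of characteristic zero, so that `p_g(S) = g (g - 1) / 2`. For
`n > p_g(S)` and Albanese trivial zero-cycles `a_1, …, a_n` on `S`, the alternating sum of the
exterior products `a_{σ(1)} × ⋯ × a_{σ(n)}` is torsion in the Chow group of zero-cycles of `S ^ n`.

Besides the geometric input of `Pool.Agent.Results.MP_83b46e_ag.ProductOfCurves` (symmetrizations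
over `g + 1` positions vanish) the proof uses that a function on the permutations of `n` pairs
which is killed by the symmetrizers on `g + 1` letters, invariant under the exchange of the
members of a pair and anti-invariant under the exchange of two pairs vanishes if
`n > g (g - 1) / 2`.
-/

namespace Pool.Agent.Results.MP_83b46e_ag.SymmetricSquares

open VC

universe u

theorem result {k : Type u} [Field k] [IsAlgClosed k] [CharZero k]
    {F : Type u} [Field F] [Algebra k F] (hF : IsFunctionField k F)
    (g : ℕ) (hg : IsGenus k F g) (n : ℕ) (hn : g.choose 2 < n)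
    (a : Fin n → (curve hF).symSq.Cycles)
    (ha : ∀ i, AlbaneseTrivialSym (curve hF) (a i)) :
    ∃ m : ℕ, 0 < m ∧ m • ∑ σ : Equiv.Perm (Fin n), ((Equiv.Perm.sign σ : ℤˣ) : ℤ) •
      extProd (fun i => a (σ i)) ∈ ((curve hF).symSq.pow n).Rat :=
  alternating_symSq' hF n g hg.1 hn a ha

end Pool.Agent.Results.MP_83b46e_ag.SymmetricSquares
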